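import Pool.Agent.Q115.FiveX8

/-!
# The saturation number `h(n, 5)` for degree monotone paths, for every `n` (MP_d898df_co)

A degree monotone path of a graph is a path along which the degrees are non-decreasing or
non-increasing; `mp G` is the largest number of vertices of such a path; `G` is `k`-saturated if
`mp G < k` and `mp (G + e) ≥ k` for every new edge `e`; `h n k` is the least number of edges of a
`k`-saturated graph on `n` vertices.

The theorem determines `h n 5` for every `n`: it is `n (n - 1) / 2` for `n ≤ 4`, `9` for `n = 5`,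
`11` for `n = 9`, and `7 ⌊n / 6⌋ + 0, 2, 4, 5, 6, 7` for `n ≡ 0, 1, 2, 3, 4, 5 (mod 6)` in all
other cases. In particular `h n 5 = (7 / 6) n (1 + o(1))`.

Lower bound: `6 e - 7 n` is a sum of local terms; if it is at most four then it is zero or
`n = 9`.
-/

namespace Pool.Agent.Results.MP_d898df_co.ExactValues

open Pool.Agent.Q115.Mono Filter Topology

theorem good_empty : Good (⊥ : SimpleGraph (Fin 0)) := by
  refine ⟨⟨?_, fun u => u.elim0⟩, fun v => v.elim0⟩
  rw [mp_lt_iff (by omega)]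
  intro l _
  match l with
  | [] => simp
  | a :: _ => exact a.elim0

theorem up0 (q : ℕ) : h (6 * q) 5 ≤ 7 * q := by
  have := h_le_iter (e' := 0) ladL edgesL good_empty (by
    have : (⊥ : SimpleGraph (Fin 0)).edgeSet = ∅ := SimpleGraph.edgeSet_bot
    rw [this, Set.ncard_empty]) q
  simpa using this

theorem up1 (q : ℕ) : h (6 * q + 7) 5 ≤ 7 * q + 9 := h_le_iter ladL edgesL goodX7 edgesX7 q
theorem up2 (q : ℕ) : h (6 * q + 8) 5 ≤ 7 * q + 11 := h_le_iter ladL edgesL goodX8 edgesX8 q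
theorem up3 (q : ℕ) : h (6 * q + 9) 5 ≤ 7 * q + 12 := h_le_iter ladL edgesL goodX9 edgesX9 q
theorem up4 (q : ℕ) : h (6 * q + 4) 5 ≤ 7 * q + 6 := h_le_iter ladL edgesL goodK edgesK q
theorem up5 (q : ℕ) : h (6 * q + 11) 5 ≤ 7 * q + 14 :=
  h_le_iter ladL edgesL goodX11 edgesX11 q

theorem low (n : ℕ) (hn : 4 ≤ n) : 7 * n ≤ 6 * h n 5 := by
  obtain ⟨G, hG, hm⟩ := h_mem n
  have h1 := lower hG (by rwa [Fintype.card_fin])
  rw [Fintype.card_fin, hm] at h1
  exact h1

theorem upp (n : ℕ) (hn : 6 ≤ n) : 6 * h n 5 ≤ 7 * n + 11 := by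
  rcases (by omega : n % 6 = 0 ∨ n % 6 = 1 ∨ n % 6 = 2 ∨ n % 6 = 3 ∨ n % 6 = 4 ∨ n % 6 = 5) with
    h | h | h | h | h | h
  · obtain ⟨q, rfl⟩ : ∃ q, n = 6 * q := ⟨n / 6, by omega⟩
    have := up0 q
    omega
  · obtain ⟨q, rfl⟩ : ∃ q, n = 6 * q + 7 := ⟨(n - 7) / 6, by omega⟩
    have := up1 q
    omega
  · obtain ⟨q, rfl⟩ : ∃ q, n = 6 * q + 8 := ⟨(n - 8) / 6, by omega⟩
    have := up2 q
    omega
  · obtain ⟨q, rfl⟩ : ∃ q, n = 6 * q + 9 := ⟨(n - 9) / 6, by omega⟩
    have := up3 q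
    omega
  · obtain ⟨q, rfl⟩ : ∃ q, n = 6 * q + 4 := ⟨(n - 4) / 6, by omega⟩
    have := up4 q
    omega
  · obtain ⟨q, rfl⟩ : ∃ q, n = 6 * q + 11 := ⟨(n - 11) / 6, by omega⟩
    have := up5 q
    omega

/-- **All values of `h(n, 5)`.** -/
theorem result :
    (∀ n : ℕ, ∃ G : SimpleGraph (Fin n), KSaturated 5 G ∧ G.edgeSet.ncard = h n 5) ∧
    (∀ n : ℕ, n ≤ 4 → h n 5 = n.choose 2) ∧ h 5 5 = 9 ∧ h 9 5 = 11 ∧
    (∀ q : ℕ, 1 ≤ q → h (6 * q) 5 = 7 * q ∧ h (6 * q + 1) 5 = 7 * q + 2 ∧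
      h (6 * q + 2) 5 = 7 * q + 4 ∧ (q ≠ 1 → h (6 * q + 3) 5 = 7 * q + 5) ∧
      h (6 * q + 4) 5 = 7 * q + 6 ∧ h (6 * q + 5) 5 = 7 * q + 7) ∧
    Tendsto (fun n : ℕ => (h n 5 : ℝ) / n) atTop (𝓝 (7 / 6)) := by
  refine ⟨h_mem, h_small, h_five, h_nine, ?_, ?_⟩
  · intro q hq
    obtain ⟨r, rfl⟩ : ∃ r, q = r + 1 := ⟨q - 1, by omega⟩
    refine ⟨?_, ?_, ?_, ?_, ?_, ?_⟩
    · have h1 := up0 (r + 1)
      have h2 := low (6 * (r + 1)) (by omega)
      omega
    · have h1 := up1 r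
      have h2 := low (6 * (r + 1) + 1) (by omega)
      have h3 : 6 * (r + 1) + 1 = 6 * r + 7 := by ring
      rw [h3] at h2 ⊢
      omega
    · have h1 := up2 r
      have h2 := low (6 * (r + 1) + 2) (by omega)
      have h3 : 6 * (r + 1) + 2 = 6 * r + 8 := by ring
      have h4 := h_ge (6 * r + 8) (7 * r + 10) (by omega) (by omega) (by omega) (by omega)
      rw [h3]
      omega
    · intro hr
      have h1 := up3 r
      have h3 : 6 * (r + 1) + 3 = 6 * r + 9 := by ring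
      have h4 := h_ge (6 * r + 9) (7 * r + 11) (by omega) (by omega) (by omega) (by omega)
      rw [h3]
      omega
    · have h1 := up4 (r + 1)
      have h4 := h_ge (6 * (r + 1) + 4) (7 * (r + 1) + 5) (by omega) (by omega) (by omega)
        (by omega)
      omega
    · have h1 := up5 r
      have h3 : 6 * (r + 1) + 5 = 6 * r + 11 := by ring
      have h4 := h_ge (6 * r + 11) (7 * r + 13) (by omega) (by omega) (by omega) (by omega)
      rw [h3]
      omega
  · have hlim : Tendsto (fun n : ℕ => (7 / 6 : ℝ) + (11 / 6) * (1 / (n : ℝ))) atTop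
        (𝓝 (7 / 6)) := by
      have h1 : Tendsto (fun n : ℕ => (1 : ℝ) / n) atTop (𝓝 0) :=
        tendsto_one_div_atTop_nhds_zero_nat
      have h2 := (h1.const_mul (11 / 6 : ℝ)).const_add (7 / 6 : ℝ)
      simpa using h2
    refine tendsto_of_tendsto_of_tendsto_of_le_of_le' tendsto_const_nhds hlim ?_ ?_
    · filter_upwards [eventually_ge_atTop 6] with n hn
      have h1 := low n (by omega)
      have h2 : (7 : ℝ) * n ≤ 6 * h n 5 := by exact_mod_cast h1
      have h3 : (0 : ℝ) < n := by positivity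
      rw [le_div_iff₀ h3]
      linarith
    · filter_upwards [eventually_ge_atTop 6] with n hn
      have h1 := upp n hn
      have h2 : (6 : ℝ) * h n 5 ≤ 7 * n + 11 := by exact_mod_cast h1
      have h3 : (0 : ℝ) < n := by positivity
      rw [div_le_iff₀ h3]
      have h4 : ((7 / 6 : ℝ) + (11 / 6) * (1 / (n : ℝ))) * n = 7 / 6 * n + 11 / 6 := by
        field_simp
      rw [h4]
      linarith

end Pool.Agent.Results.MP_d898df_co.ExactValues
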